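import Pool.Agent.Lib.MP_1e64e3_lc.Alg

/-!
# DOMINATING SET on balanced chordal graphs is solvable in polynomial time
-/

namespace Pool.Agent.Results.MP_1e64e3_lc.DomInP

/-- A graph is chordal if it has no induced cycle of length at least four. -/
def Chordal {V : Type} (G : SimpleGraph V) : Prop :=
  ∀ n : ℕ, 4 ≤ n → IsEmpty (SimpleGraph.cycleGraph n ↪g G)

/-- A hypergraph, given by the set `E` of its edges, is balanced if every cycle
`x₁, e₁, x₂, e₂, …, xₘ, eₘ, x₁` of odd length `m` (distinct vertices `xᵢ` and distinct edges `eᵢ`
with `xᵢ, xᵢ₊₁ ∈ eᵢ`, indices modulo `m`) has an edge `eᵢ` that contains at least three of the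
vertices `x₁, …, xₘ`. -/
def Balanced {V : Type} (E : Set (Set V)) : Prop :=
  ∀ m : ℕ, Odd m → 3 ≤ m → ∀ (x : ZMod m → V) (e : ZMod m → Set V),
    Function.Injective x → Function.Injective e →
    (∀ i, e i ∈ E ∧ x i ∈ e i ∧ x (i + 1) ∈ e i) → ∃ i, 3 ≤ {j | x j ∈ e i}.ncard

/-- The edges of the clique hypergraph of `G`: the maximal cliques. -/
def cliqueHypergraph {V : Type} (G : SimpleGraph V) : Set (Set V) := {Q | Maximal G.IsClique Q}

/-- An instance of DOMINATING SET: a graph on the vertex set `Fin n` and a number `k`. -/
structure Inst where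
  /-- the number of vertices -/
  n : ℕ
  /-- the graph -/
  graph : SimpleGraph (Fin n)
  /-- the bound -/
  k : ℕ

/-- The yes-instances: the graph has a dominating set with at most `k` vertices. -/
def Inst.Yes (I : Inst) : Prop :=
  ∃ D : Finset (Fin I.n), D.card ≤ I.k ∧ ∀ v, v ∉ D → ∃ u ∈ D, I.graph.Adj v u

open scoped Classical in
/-- The rows of the adjacency matrix. -/
noncomputable def Inst.rows (I : Inst) : List (List Bool) :=
  List.ofFn fun v => List.ofFn fun u => decide (I.graph.Adj v u)

/-- The encoding of instances as words over the alphabet `{0, 1, separator}` (the separator is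
`none`): the rows of the adjacency matrix, each followed by the separator, and then the binary
expansion of `k` (least significant bit first). -/
noncomputable def encode (I : Inst) : List (Option Bool) :=
  (I.rows.flatMap fun row => row.map some ++ [none]) ++ I.k.bits.map some

/-- DOMINATING SET restricted to balanced chordal graphs is decided by a polynomial-time Turing
machine. -/
theorem result : ∃ f : Inst → Bool,
    Nonempty (Turing.TM2ComputableInPolyTime encode Computability.encodeBool f) ∧
    ∀ I : Inst, Chordal I.graph → Balanced (cliqueHypergraph I.graph) → (f I = true ↔ I.Yes) := by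
  refine ⟨fun I => BalChord.decW (PolyTime.blocks (encode I)).reverse, ?_, ?_⟩
  · exact PolyTime.PolyFn.toTM2 (F := fun w => BalChord.decW (PolyTime.blocks w).reverse)
      (BalChord.poly_decW.comp (PolyTime.PolyFn.reverse (PolyTime.PolyFn.blocks PolyTime.PolyFn.id)))
      encode _ (fun _ => rfl)
  · intro I hc hb
    have h1 : BalChord.decW (PolyTime.blocks (encode I)).reverse =
        BalChord.decRows I.rows (min I.k I.rows.length) := BalChord.decW_encodeMat I.rows I.k
    have h2 : I.rows.length = I.n := by
      unfold Inst.rows
      rw [List.length_ofFn]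
    dsimp only
    rw [h1, h2]
    exact BalChord.decRows_iff (BalChord.oddFree_nb hc hb) (fun j i => by simp) I.k

end Pool.Agent.Results.MP_1e64e3_lc.DomInP
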